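import Pool.Agent.helper64.AX.SpecR

/-!
# AX, row RPR: powers of a generator of `(ZMod p)ˣ`
-/

set_option autoImplicit false

namespace Pool.Agent.AX

open Matrix

theorem RPR : RPR_stmt := by
  intro p hp G _ u N hu hne h
  have hord : orderOf u = p := orderOf_eq_prime hu hne
  obtain ⟨z, hz⟩ := IsCyclic.exists_generator (α := (ZMod p)ˣ)
  have hzo : orderOf z = p - 1 := by
    rw [orderOf_eq_card_of_forall_mem_zpowers hz, Nat.card_eq_fintype_card, ZMod.card_units]
  have hval : (((z : ZMod p).val : ℕ) : ZMod p) = z := ZMod.natCast_zmod_val _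
  have hpg : ¬ p ∣ (z : ZMod p).val := by
    intro hd
    have h1 : (((z : ZMod p).val : ℕ) : ZMod p) = 0 := (ZMod.natCast_eq_zero_iff _ _).2 hd
    rw [hval] at h1
    exact z.ne_zero h1
  have h1 := h _ hpg
  have h2 : u ^ (z : ZMod p).val ^ N = u ^ 1 := by rw [h1, pow_one]
  rw [pow_eq_pow_iff_modEq, hord] at h2
  have h3 := (ZMod.natCast_eq_natCast_iff _ _ _).2 h2
  rw [Nat.cast_pow, hval, Nat.cast_one] at h3
  have h4 : z ^ N = 1 := by
    apply Units.ext
    rw [Units.val_pow_eq_pow_val, h3, Units.val_one]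
  rw [← hzo]
  exact orderOf_dvd_of_pow_eq_one h4

end Pool.Agent.AX
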